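import Pool.Agent.Helper32.FR.Defs
import Pool.Agent.Helper29.BA.CndCCC

/-!
# Project FR, module B2: the countable chain condition of the final poset
-/

set_option autoImplicit false
set_option linter.unusedSectionVars false

namespace Pool.Agent.Helper32.FR

open Pool.Agent.Helper33.HM Pool.Agent.Helper94.BA

universe u

variable {Ω : Type} [LinearOrder Ω] {I : Type 1} [LinearOrder I]
variable {F : I → Set (Name (PB Ω) I)} {ℓ : I}

/-- The chain condition of the final poset from that of `TM Ω`. -/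
theorem h10_ft_ac (h₀ : AC (TM Ω)) : AC (FT F ℓ) := by
  classical
  intro A h
  by_contra hA
  choose S hS using fun p : A => Raw.h29_supp p.1.1.1.1
  have hun : ¬ (Set.univ : Set A).Countable := by
    rw [Set.countable_univ_iff]
    exact hA
  obtain ⟨J, hJ, R, hR⟩ := Cond.exists_delta S hun
  -- the stems on the root
  let st : A → R → List Bool := fun p i =>
    if h : ∃ s q m f v, p.1.1.1.1.Entry i.1 q s m f v then h.choose else []
  have hst : ∀ (p : A) (i : R) q s m f v, p.1.1.1.1.Entry i.1 q s m f v → st p i = s := by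
    intro p i q s m f v he
    have h : ∃ s q m f v, p.1.1.1.1.Entry i.1 q s m f v := ⟨s, q, m, f, v, he⟩
    obtain ⟨q', m', f', v', he'⟩ := h.choose_spec
    simp only [st, dif_pos h]
    exact (Raw.Entry.unique p.1.1.1.2.1.wf he' he).2.1
  -- uncountably many conditions have the same stems
  have hfib : ∃ t : R → List Bool, ¬ {p | p ∈ J ∧ st p = t}.Countable := by
    by_contra hcon
    push Not at hcon
    apply hJ
    have hc : (⋃ t : R → List Bool, {p | p ∈ J ∧ st p = t}).Countable :=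
      Set.countable_iUnion hcon
    refine hc.mono fun p hp => ?_
    rw [Set.mem_iUnion]
    exact ⟨st p, hp, rfl⟩
  obtain ⟨t, ht⟩ := hfib
  obtain ⟨p, hp, q, hq, hne, r, hrp, hrq⟩ := h₀.h29_pair ht fun p : A =>
    (⟨(p.1.1.1.1.base.down, p.1.1.2), p.1.2⟩ : TM Ω)
  have hne' : p.1 ≠ q.1 := fun h => hne (Subtype.ext h)
  obtain ⟨c, hcp, hcq, hcb⟩ := h29_exists_common p.1.1.1 q.1.1.1 (ULift.up r.1.1) hrp.1 hrq.1 (by
    intro i p' s m f v q' t m' g w he he'
    have hi : i ∈ R := by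
      rw [← hR p hp.1 q hq.1 hne]
      exact Finset.mem_inter.2 ⟨hS p _ _ _ _ _ _ he, hS q _ _ _ _ _ _ he'⟩
    rw [← hst p ⟨i, hi⟩ _ _ _ _ _ he, ← hst q ⟨i, hi⟩ _ _ _ _ _ he', hp.2, hq.2])
  refine h p.1 p.2 q.1 q.2 hne' ⟨⟨(c, r.1.2), ?_⟩, ⟨hcp, hrp.2⟩, ⟨hcq, hrq.2⟩⟩
  show c.1.base.down.Chn r.1.2
  rw [hcb]
  exact r.2

end Pool.Agent.Helper32.FR
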