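import Pool.Agent.Helper32.FR.Defs
import Pool.Agent.Helper41.BA.ScaleSucc

/-!
# Project FR, module C3: the Mathias step
-/

set_option autoImplicit false
set_option linter.unusedSectionVars false

namespace Pool.Agent.Helper32.FR

open Pool.Agent.Helper33.HM Pool.Agent.Helper94.BA

universe u

/-- FR-C3: the Mathias step. -/
theorem mstep_inf {A B : Type u} [CompleteBooleanAlgebra A] [CompleteBooleanAlgebra B]
    {e : A → B} (he : CE e) {J : Set (ℕ → A)} {z : ℕ → B} (hz : MStep e J z) (hp : Prp J)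
    (hs : ∀ x ∈ J, ∀ y ∈ J, x ⊔ y ∈ J) (hf : ∀ m, finN m ∈ J) : finV z = ⊥ := by
  by_contra hcon
  unfold finV at hcon
  obtain ⟨m, hm⟩ := exists_inf_ne_bot hcon le_rfl
  obtain ⟨a, ha, s, y, hy, hle⟩ := hz.dense _ hm
  have hprop := hp y hy (max s.length m)
  obtain ⟨k, hk0⟩ := exists_inf_ne_bot ha (le_top.trans hprop.ge)
  have hk : max s.length m ≤ k := by
    by_contra hcon
    exact hk0 (by simp [hcon])
  rw [iSup_pos hk] at hk0
  have hk1 : s.length ≤ k := le_trans (le_max_left _ _) hk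
  have hk2 : m ≤ k := le_trans (le_max_right _ _) hk
  obtain ⟨φ, ⟨⟨h1, h2⟩, h3⟩, h4⟩ := h41_pt_key hz hk0
    ((s ++ List.replicate (k - s.length) false) ++ [true]) hy
    (((h41_ae_mcond z fun n => e (y n)).and
      (ae_iInf fun n : ℕ => ⨅ _ : m ≤ n, (z n)ᶜ)).and (h41_ae_cyl z))
  rw [Pt.inf, h1] at h4
  obtain ⟨h4, h5, h6⟩ := h4
  have hlen : ((s ++ List.replicate (k - s.length) false) ++ [true]).length = k + 1 := by
    simp; omega
  rw [hlen] at h5 h6
  have hzk : φ (z k) := by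
    rw [← h5 k (by omega)]
    rw [List.getD_eq_getElem _ _ (by rw [hlen]; omega), List.getElem_append_right (by simp; omega)]
    simp
  have h7 : φ (e a ⊓ mcond z s fun n => e (y n)) := by
    rw [Pt.inf, h1]
    refine ⟨φ.mono (he.le_iff.2 inf_le_left) h4, ?_, ?_⟩
    · intro i hi
      rw [← h5 i (by omega)]
      rw [List.getD_eq_getElem s _ hi, List.getD_eq_getElem _ _ (by rw [hlen]; omega)]
      rw [List.getElem_append_left (by simp; omega), List.getElem_append_left hi]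
    · intro i hi hyi
      rcases lt_trichotomy i k with h8 | h8 | h8
      · rw [← h5 i (by omega)]
        rw [List.getD_eq_getElem _ _ (by rw [hlen]; omega),
          List.getElem_append_left (by simp; omega), List.getElem_append_right (by omega)]
        simp
      · subst h8
        have h9 := φ.mono (he.le_iff.2 inf_le_right) h4
        rw [he.map_compl, Pt.compl] at h9
        exact (h9 hyi).elim
      · exact h6 i (by omega) hyi
  have h8 := φ.mono hle h7
  rw [Pt.inf, h2] at h8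
  have h9 := h8.2 k
  rw [Pt.iInf_prop] at h9
  have h10 := h9 hk2
  rw [Pt.compl] at h10
  exact h10 hzk

theorem mstep_fin {A B : Type u} [CompleteBooleanAlgebra A] [CompleteBooleanAlgebra B]
    {e : A → B} (he : CE e) {J : Set (ℕ → A)} {z : ℕ → B} (hz : MStep e J z) (hp : Prp J)
    (hs : ∀ x ∈ J, ∀ y ∈ J, x ⊔ y ∈ J) (hf : ∀ m, finN m ∈ J) (y : ℕ → A) (hy : y ∈ J) :
    finV (z ⊓ fun n => e (y n)) = ⊤ := by
  refine top_le_iff.1 (le_of_forall_meets fun b hb _ => ?_)
  obtain ⟨a, ha, s, y', hy', hle⟩ := hz.dense _ hb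
  obtain ⟨φ, ⟨⟨h1, h2⟩, h3⟩, h4⟩ := h41_pt_key hz ha s (hs _ hy _ hy')
    (((h41_ae_mcond z fun n => e ((y ⊔ y') n)).and (h41_ae_mcond z fun n => e (y' n))).and
      (ae_finV (z ⊓ fun n => e (y n))))
  rw [Pt.inf, h1] at h4
  obtain ⟨h4, h5, h6⟩ := h4
  intro hbot
  have h7 : φ (b ⊓ finV (z ⊓ fun n => e (y n))) := by
    rw [Pt.inf, h3]
    refine ⟨φ.mono hle ?_, s.length, fun n hn => ?_⟩
    · rw [Pt.inf, h2]
      refine ⟨h4, h5, fun n hn hy'n => h6 n hn ?_⟩
      exact φ.mono (he.le_iff.2 (le_sup_right : y' n ≤ y n ⊔ y' n)) hy'n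
    · rw [Pi.inf_apply, Pt.inf]
      rintro ⟨h8, h9⟩
      refine h6 n hn ?_ h8
      exact φ.mono (he.le_iff.2 (le_sup_left : y n ≤ y n ⊔ y' n)) h9
  rw [hbot] at h7
  simp at h7

end Pool.Agent.Helper32.FR
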